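import Mathlib
import Pool.Agent.Helper43.GenusDef
import Pool.Agent.Helper43.Small

/-!
# The orientable genus of `K_n - K_2` for `n ≡ 2 (mod 24)`

For `n = 24 s + 2` we construct a triangular embedding of `K_n - K_2` on the vertex set
`ℤ/24s ∪ {x, y}` which is invariant under even translations.  For `s ≥ 2` the triangle orbits are
given by two zigzag ladders (one with odd, one with even currents) and sixteen further triangles;
for `s = 1` by a table.  The lower bound is Euler's formula.
-/

set_option autoImplicit false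

namespace Pool.Agent.Results.MP_a803c6_co.GenusMinusEdge

open Pool.Agent.Helper43.Genus

universe u

/-- For every `n ≥ 3` with `n ≡ 2 (mod 24)`, the orientable genus of the complete graph on `n`
vertices minus one edge is `⌈((n-3)(n-4)-2)/12⌉`. -/
theorem result {V : Type u} [Fintype V] (x y : V) (hxy : x ≠ y) (hn : 3 ≤ Fintype.card V)
    (hmod : Fintype.card V % 24 = 2) :
    (genus (completeMinusEdge x y) : ℤ) =
      ⌈((((Fintype.card V : ℚ) - 3) * ((Fintype.card V : ℚ) - 4) - 2) / 12)⌉ := by
  obtain ⟨s, hs, hs1⟩ : ∃ s, Fintype.card V = 24 * s + 2 ∧ 1 ≤ s :=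
    ⟨Fintype.card V / 24, by omega, by omega⟩
  obtain ⟨R, hR⟩ : ∃ R : RotationSystem (completeMinusEdge x y),
      ∀ d, R.faceMap (R.faceMap (R.faceMap d)) = d := by
    rcases (by omega : s = 1 ∨ 2 ≤ s) with h | h
    · subst h
      exact Small.scheme.exists_rotation hs hxy
    · have : NeZero (24 * s) := ⟨by omega⟩
      exact (Family.scheme s h).exists_rotation hs hxy
  -- the genus is `48 s² - 6 s`
  obtain ⟨g, hg⟩ : ∃ g : ℕ, (g : ℤ) = 48 * (s : ℤ) ^ 2 - 6 * s := by
    refine ⟨(48 * (s : ℤ) ^ 2 - 6 * s).toNat, Int.toNat_of_nonneg ?_⟩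
    have : (1 : ℤ) ≤ s := by exact_mod_cast hs1
    nlinarith
  have h12 : (12 * g : ℤ) =
      ((Fintype.card V : ℤ) - 3) * ((Fintype.card V : ℤ) - 4) - 2 := by
    rw [hs, hg]
    push_cast
    ring
  rw [genus_eq hxy (by omega) R hR g h12]
  have h12q : (((Fintype.card V : ℚ) - 3) * ((Fintype.card V : ℚ) - 4) - 2) / 12 = (g : ℤ) := by
    have h : (12 * g : ℚ) =
        ((Fintype.card V : ℚ) - 3) * ((Fintype.card V : ℚ) - 4) - 2 := by exact_mod_cast h12
    rw [← h]
    push_cast
    ring
  rw [h12q, Int.ceil_intCast]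

end Pool.Agent.Results.MP_a803c6_co.GenusMinusEdge
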